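import Pool.Agent.P.MP_6e34ef_nt.AK.Defs

set_option autoImplicit false
open Finset NumberField

namespace Pool.Agent.P.MP_6e34ef_nt.AK

open Pool.Agent.P.MP_6e34ef_nt.NF Pool.Agent.P.MP_6e34ef_nt.SE

variable {K : Type} [Field K] [NumberField K]

theorem Modulus_ord_nonneg {S T : Finset (Pr K)} {ξ : K} (h0 : ξ ≠ 0) (h1 : ξ ≠ 1)
    (hS : ∀ v, v ∉ S → ord v ξ = 0) (hd : Disjoint S T) {v : Pr K} (hv : v ∈ T) :
    0 ≤ ord v (ξ - 1) := by
  have hvS : v ∉ S := fun h => disjoint_left.1 hd h hv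
  have h := ord_add v h0 (neg_ne_zero.2 one_ne_zero)
    (by rw [← sub_eq_add_neg]; exact sub_ne_zero.2 h1)
  rw [← sub_eq_add_neg, ord_neg, ord_one, hS v hvS] at h
  simpa using h

theorem Modulus_div (n : ℤ) (hn : 0 ≤ n) (V : ℕ) (hV : 1 ≤ V) :
    (V : ℝ) * ((n.toNat / V : ℕ) : ℝ) ≤ n ∧ (n : ℝ) - V ≤ (V : ℝ) * ((n.toNat / V : ℕ) : ℝ) := by
  obtain ⟨m, rfl⟩ := Int.eq_ofNat_of_zero_le hn
  rw [Int.toNat_natCast]
  have h1 : V * (m / V) ≤ m := Nat.mul_div_le m V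
  have h2 : m < V * (m / V) + V := by
    have := Nat.div_add_mod m V
    have := Nat.mod_lt m (show 0 < V by omega)
    omega
  have h3 : ((V * (m / V) : ℕ) : ℝ) ≤ m := by exact_mod_cast h1
  have h4 : (m : ℝ) ≤ ((V * (m / V) + V : ℕ) : ℝ) := by exact_mod_cast h2.le
  push_cast at h3 h4 ⊢
  constructor <;> linarith

/-- the modulus of depth `V` -/
theorem modulus {S T : Finset (Pr K)} {ξ : K} (h0 : ξ ≠ 0) (h1 : ξ ≠ 1)
    (hS : ∀ v, v ∉ S → ord v ξ = 0) (hd : Disjoint S T) (hT : ∀ v, v ∉ T → ord v (ξ - 1) ≤ 0)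
    (V : ℕ) (hV : 1 ≤ V) :
    ∃ (e : Pr K → ℕ) (U : InfinitePlace K → ℝ), Modu S T ξ V e U ∧
      V * depth T e U ≤ ht S ξ + dg K ∧
      ht S ξ - 2 * dg K - V * ∑ v ∈ T, wt v ≤ V * depth T e U := by
  classical
  have hne : ξ - 1 ≠ 0 := sub_ne_zero.2 h1
  have hVp : (0 : ℝ) < V := by exact_mod_cast hV
  have hpos : ∀ w : InfinitePlace K, 0 < w (ξ - 1) := fun w => InfinitePlace.pos_iff.2 hne
  set e : Pr K → ℕ := fun v => (ord v (ξ - 1)).toNat / V with he
  set U : InfinitePlace K → ℝ :=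
    fun w => if w (ξ - 1) ≤ 1 / 2 then -la w (ξ - 1) / V else 0 with hU
  have hlog : ∀ w : InfinitePlace K, w (ξ - 1) ≤ 1 / 2 → 0 ≤ -la w (ξ - 1) := fun w hw => by
    have := Real.log_nonpos (hpos w).le (by linarith)
    unfold la
    linarith
  have hUV : ∀ w : InfinitePlace K, (V : ℝ) * U w ≤ max (-la w (ξ - 1)) 0 ∧
      max (-la w (ξ - 1)) 0 - 1 ≤ (V : ℝ) * U w := fun w => by
    by_cases hw : w (ξ - 1) ≤ 1 / 2
    · have e1 : (V : ℝ) * U w = -la w (ξ - 1) := by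
        simp only [hU, if_pos hw]
        field_simp
      rw [e1, max_eq_left (hlog w hw)]
      constructor <;> linarith
    · have e1 : (V : ℝ) * U w = 0 := by simp only [hU, if_neg hw, mul_zero]
      rw [e1]
      refine ⟨le_max_right _ _, ?_⟩
      have h2 : Real.log (1 / 2) ≤ la w (ξ - 1) :=
        Real.log_le_log (by norm_num) (not_le.1 hw).le
      have h3 : Real.log (1 / 2) = -Real.log 2 := by rw [one_div, Real.log_inv]
      have h4 := Real.log_two_lt_d9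
      have h5 : max (-la w (ξ - 1)) 0 ≤ 1 := max_le (by linarith) zero_le_one
      linarith
  have heV : ∀ v ∈ T, (V : ℝ) * (e v : ℝ) ≤ ord v (ξ - 1) ∧
      (ord v (ξ - 1) : ℝ) - V ≤ (V : ℝ) * (e v : ℝ) := fun v hv =>
    Modulus_div _ (Modulus_ord_nonneg h0 h1 hS hd hv) V hV
  have hdep : V * depth T e U = ∑ v ∈ T, (V : ℝ) * (e v : ℝ) * wt v +
      ∑ w : InfinitePlace K, mu w * ((V : ℝ) * U w) := by
    unfold depth
    rw [mul_add, mul_sum, mul_sum]
    congr 1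
    · exact sum_congr rfl fun v _ => by ring
    · exact sum_congr rfl fun w _ => by ring
  have hhalf : ∀ w : InfinitePlace K, U w ≠ 0 → w (ξ - 1) ≤ 1 / 2 := fun w hw => by
    by_contra h
    exact hw (by simp only [hU, if_neg h])
  refine ⟨e, U, ⟨h0, hS, hd, fun v hv => Or.inr (heV v hv).1, fun w => ?_, hhalf, fun w hw => ?_⟩,
    ?_, ?_⟩
  · by_cases hw : w (ξ - 1) ≤ 1 / 2
    · simp only [hU, if_pos hw]
      exact div_nonneg (hlog w hw) hVp.le
    · simp only [hU, if_neg hw, le_refl]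
  · have hw' := hhalf w hw
    have e1 : (V : ℝ) * U w = -la w (ξ - 1) := by
      simp only [hU, if_pos hw']
      field_simp
    rw [e1, neg_neg, la, Real.exp_log (hpos w)]
  · rw [hdep]
    refine le_trans (add_le_add ?_ ?_) (prox_le h0 h1 hS hd)
    · exact sum_le_sum fun v hv => mul_le_mul_of_nonneg_right (heV v hv).1 (wt_pos v).le
    · exact sum_le_sum fun w _ =>
        mul_le_mul_of_nonneg_left (hUV w).1 (zero_le_one.trans (one_le_mu w))
  · rw [hdep]
    have hp := prox_ge h0 h1 hS hd hT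
    have h2 : ∑ v ∈ T, ((ord v (ξ - 1) : ℝ) * wt v - V * wt v) ≤
        ∑ v ∈ T, (V : ℝ) * (e v : ℝ) * wt v := sum_le_sum fun v hv => by
      rw [← sub_mul]
      exact mul_le_mul_of_nonneg_right (heV v hv).2 (wt_pos v).le
    have h3 : ∑ w : InfinitePlace K, (mu w * max (-la w (ξ - 1)) 0 - mu w) ≤
        ∑ w : InfinitePlace K, mu w * ((V : ℝ) * U w) := sum_le_sum fun w _ => by
      have := mul_le_mul_of_nonneg_left (hUV w).2 (zero_le_one.trans (one_le_mu w))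
      linarith
    rw [sum_sub_distrib, ← mul_sum] at h2
    rw [sum_sub_distrib, sum_mu] at h3
    linarith

end Pool.Agent.P.MP_6e34ef_nt.AK
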