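import Pool.Agent.P.MP_6e34ef_nt.AK.Prop
import Pool.Agent.P.MP_6e34ef_nt.AK.Modulus

set_option autoImplicit false
open Finset NumberField

namespace Pool.Agent.P.MP_6e34ef_nt.AK

open Pool.Agent.P.MP_6e34ef_nt.NF Pool.Agent.P.MP_6e34ef_nt.SE

theorem main_sq {x : ℝ} (hx : 0 ≤ x) : x ^ 2 / 2 ≤ Real.exp x := by
  have := Real.quadratic_le_exp_of_nonneg hx
  linarith

theorem main_one (ε : ℝ) (hε : 0 < ε) (hε1 : ε ≤ 1) : ∃ C : ℝ, 0 ≤ C ∧
    ∀ (K : Type) [Field K] [NumberField K] (S T : Finset (Pr K)) (ξ : K) (L : ℝ), ξ ≠ 0 → ξ ≠ 1 →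
      (∀ v, v ∉ S → ord v ξ = 0) → Disjoint S T → (∀ v, v ∉ T → ord v (ξ - 1) ≤ 0) →
      ∑ v ∈ S, wt v + ∑ v ∈ T, wt v ≤ L → lD K ≤ L → C * dg K ≤ L →
      ht S ξ ≤ Real.exp (lD K / 2 + ε * L) := by
  obtain ⟨S0, hS0⟩ := exists_nat_ge (16 / ε)
  rw [div_le_iff₀ hε] at hS0
  have hS : (16 : ℝ) ≤ S0 := by nlinarith [S0.cast_nonneg (α := ℝ)]
  have hS' : 16 ≤ S0 := by exact_mod_cast hS
  obtain ⟨C, hC, hprop⟩ := prop (7 * S0) (by omega)
  have hC1 : (1 : ℝ) ≤ C := by exact_mod_cast hC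
  have hKK : (((14 * S0 + 4 : ℕ) : ℝ)) = 14 * S0 + 4 := by push_cast; ring
  obtain ⟨C', hC', hcard⟩ := card_le (Real.log (14 * S0 + 4)) (ε / 8)
    (Real.log_nonneg (by linarith)) (by positivity)
  refine ⟨36 * C / ε ^ 2 + 8 * (C' + 3) / ε + (18 * (7 * S0 + 2) + C), by positivity, ?_⟩
  intro K _ _ S T ξ L h0 h1 hs hd hT hw hD hL
  by_contra hh
  rw [not_le] at hh
  have hn := one_le_dg (K := K)
  have hD0 := lD_nonneg (K := K)
  have hwS : 0 ≤ ∑ v ∈ S, wt v := sum_nonneg fun v _ => (wt_pos v).le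
  have hwT : 0 ≤ ∑ v ∈ T, wt v := sum_nonneg fun v _ => (wt_pos v).le
  have hcard := hcard K S
  obtain ⟨s, hs1⟩ : ∃ s : ℝ, s * S0 = 1 := ⟨1 / S0, by field_simp⟩
  have hs0 : 0 < s := by nlinarith
  have hsε : 16 * s ≤ ε := by nlinarith
  set n := dg K
  set h := ht S ξ
  have a1 : 36 * C / ε ^ 2 ≤ 36 * C / ε ^ 2 * n := le_mul_of_one_le_right (by positivity) hn
  have a0 : 0 ≤ 36 * C / ε ^ 2 * n := by positivity
  have a2 : 0 ≤ 8 * (C' + 3) / ε * n := by positivity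
  have a3 : 0 ≤ 18 * (7 * S0 + 2) * n := by positivity
  have a4 : 0 ≤ C * n := by positivity
  have a5 : 16 * n ≤ S0 * n := mul_le_mul_of_nonneg_right hS (by linarith)
  have b1 : 36 * C ≤ L * ε ^ 2 := by
    rw [← div_le_iff₀ (by positivity)]; linarith
  have b2 : (C' + 3) * n ≤ ε * L / 8 := by
    have : 8 * (C' + 3) / ε * n ≤ L := by linarith
    rw [div_mul_eq_mul_div, div_le_iff₀ hε] at this
    linarith
  have b3 : 18 * (7 * S0 + 2) * n ≤ L := by linarith
  have b4 : C * n ≤ L := by linarith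
  have b5 : 64 * n ≤ L := by linarith
  have hL0 : 0 < L := by linarith
  have c1 : 18 * L ≤ h := by
    have := main_sq (x := ε * L) (by positivity)
    have := Real.exp_le_exp.2 (show ε * L ≤ lD K / 2 + ε * L by linarith)
    have := mul_le_mul_of_nonneg_right (show 36 ≤ L * ε ^ 2 by linarith) hL0.le
    linarith
  obtain ⟨V, v1, v2⟩ : ∃ V : ℕ, h ≤ V * (3 * L) ∧ V * (3 * L) ≤ h + 3 * L := by
    refine ⟨⌈h / (3 * L)⌉₊, (div_le_iff₀ (by positivity)).1 (Nat.le_ceil _), ?_⟩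
    rw [← le_div_iff₀ (by positivity), add_div, div_self (by positivity)]
    exact (Nat.ceil_lt_add_one (div_nonneg (by linarith) (by positivity))).le
  have hV : (0 : ℝ) < V := by
    by_contra hV
    have := mul_le_mul_of_nonneg_right (not_lt.1 hV) hL0.le
    linarith
  obtain ⟨e, U, hM, m1, m2⟩ := modulus h0 h1 hs hd hT V (by exact_mod_cast hV)
  set G := depth T e U
  have g1 : h / 2 ≤ V * G := by
    have := mul_le_mul_of_nonneg_left (show ∑ v ∈ T, wt v ≤ L by linarith) hV.le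
    linarith
  have g2 : L ≤ G := le_of_mul_le_mul_left (by linarith) hV
  have g3 : G ≤ 4 * L := le_of_mul_le_mul_left (by linarith) hV
  have hb : n * ((1 - s) * G / n) = (1 - s) * G := by field_simp
  have k1 : (7 * S0 + 2) * (1 / (14 * S0 + 4 : ℝ)) = 1 / 2 := by field_simp; ring
  have k2 : 14 * (1 / (14 * S0 + 4 : ℝ)) ≤ s := by
    rw [mul_one_div, div_le_iff₀ (by positivity)]; linarith
  have k3 : 4 * n ≤ s * L := by
    have t1 : s * (4 * (S0 * n)) ≤ s * L := mul_le_mul_of_nonneg_left (by linarith) hs0.le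
    have t2 : s * (4 * (S0 * n)) = 4 * n := by linear_combination 4 * n * hs1
    linarith
  have k4 : s * L ≤ s * G := mul_le_mul_of_nonneg_left g2 hs0.le
  have k5 : 14 * (1 / (14 * S0 + 4 : ℝ)) * L ≤ s * L := mul_le_mul_of_nonneg_right k2 hL0.le
  have k6 : 16 * s * G ≤ 1 * G := mul_le_mul_of_nonneg_right (hsε.trans hε1) (by linarith)
  have k7 : C * n * V ≤ L * V := mul_le_mul_of_nonneg_right b4 hV.le
  have h3 : (C : ℝ) * (14 * S0 + 4 : ℝ) ^ S.card * Real.exp (s * G + 3 * n + lD K / 2) ≤ V := by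
    refine le_of_mul_le_mul_right (le_trans ?_ (hh.le.trans v1)) (show 0 < 3 * L by positivity)
    have e1 : (14 * S0 + 4 : ℝ) ^ S.card = Real.exp (S.card * Real.log (14 * S0 + 4)) := by
      rw [Real.exp_nat_mul, Real.exp_log (by positivity)]
    have e2 : C * (3 * L) ≤ Real.exp (ε * L / 2) := by
      have := main_sq (x := ε * L / 2) (by positivity)
      have := mul_le_mul_of_nonneg_right b1 hL0.le
      have : 0 ≤ C * L := by positivity
      linarith
    calc _ = C * (3 * L) * Real.exp (S.card * Real.log (14 * S0 + 4) +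
          (s * G + 3 * n + lD K / 2)) := by rw [e1, Real.exp_add (S.card * _)]; ring
      _ ≤ Real.exp (ε * L / 2) * Real.exp (lD K / 2 + ε * L / 2) := by
          refine mul_le_mul e2 (Real.exp_le_exp.2 ?_) (by positivity) (by positivity)
          have t1 : ε / 8 * ∑ v ∈ S, wt v ≤ ε / 8 * L :=
            mul_le_mul_of_nonneg_left (by linarith) (by positivity)
          have t2 : s * G ≤ s * (4 * L) := mul_le_mul_of_nonneg_left g3 hs0.le
          have t3 : 16 * s * L ≤ ε * L := mul_le_mul_of_nonneg_right hsε hL0.le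
          linarith
      _ = _ := by rw [← Real.exp_add]; congr 1; ring
  have hCV : (C : ℝ) ≤ V := by
    refine le_trans ?_ h3
    have e1 : (1 : ℝ) ≤ (14 * S0 + 4 : ℝ) ^ S.card := one_le_pow₀ (by linarith)
    have e2 : 1 ≤ Real.exp (s * G + 3 * n + lD K / 2) := Real.one_le_exp (by linarith)
    rw [mul_assoc]
    exact le_mul_of_one_le_right (by linarith) (one_le_mul_of_one_le_of_one_le e1 e2)
  have key := hprop K S T ξ V e U (14 * S0 + 4) ((1 - s) * G / n) L hM (by omega)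
    (by exact_mod_cast hCV) (by linarith) (by rw [hb, hKK]; linarith) (by rw [hb]; linarith)
    (by rw [hb, hKK, show G - (1 - s) * G = s * G by ring]; exact h3) (by linarith)
  rw [hb, hKK] at key
  push_cast at key
  have e1 : (7 * S0 + 2) * V * ((1 - s) * G + 1 / (14 * S0 + 4) * L + 9 * n) =
      7 * S0 * V * G - 5 * (V * G) - 2 * s * (V * G) + V * L / 2 + 9 * (7 * S0 + 2) * n * V := by
    linear_combination V * L * k1 - 7 * V * G * hs1
  have e2 : 0 ≤ s * (V * G) := mul_nonneg hs0.le (by linarith)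
  have e3 : 18 * (7 * S0 + 2) * n * V ≤ L * V := mul_le_mul_of_nonneg_right b3 hV.le
  change _ ≤ h + _ at key
  linarith

/-- subexponential bound for the height -/
theorem main (ε : ℝ) (hε : 0 < ε) : ∃ C : ℝ, 0 ≤ C ∧
    ∀ (K : Type) [Field K] [NumberField K] (S T : Finset (Pr K)) (ξ : K) (L : ℝ), ξ ≠ 0 → ξ ≠ 1 →
      (∀ v, v ∉ S → ord v ξ = 0) → Disjoint S T → (∀ v, v ∉ T → ord v (ξ - 1) ≤ 0) →
      ∑ v ∈ S, wt v + ∑ v ∈ T, wt v ≤ L → lD K ≤ L → C * dg K ≤ L →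
      ht S ξ ≤ Real.exp (lD K / 2 + ε * L) := by
  obtain ⟨C, hC, h⟩ := main_one (min ε 1) (lt_min hε one_pos) (min_le_right _ _)
  refine ⟨C, hC, fun K _ _ S T ξ L h0 h1 hs hd hT hw hD hL =>
    (h K S T ξ L h0 h1 hs hd hT hw hD hL).trans (Real.exp_le_exp.2 ?_)⟩
  have := mul_le_mul_of_nonneg_right (min_le_left ε 1) (lD_nonneg.trans hD)
  linarith

end Pool.Agent.P.MP_6e34ef_nt.AK
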