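import Pool.Agent.P.MP_6e34ef_nt.AK.Expand
import Pool.Agent.P.MP_6e34ef_nt.SE.Auxil
import Pool.Agent.P.MP_6e34ef_nt.SE.Close
import Pool.Agent.P.MP_6e34ef_nt.SE.Zero

set_option autoImplicit false
open Finset Polynomial

namespace Pool.Agent.P.MP_6e34ef_nt.AK

open Pool.Agent.P.MP_6e34ef_nt.SE

/-- greedy choice of slopes without small relations -/
theorem select' (k C1 : ℕ) : ∃ Y : ℕ, ∀ A : Finset ℕ, Y < A.card →
    ∃ (j0 : ℕ) (d : Fin k → ℕ), j0 ∈ A ∧ (∀ i, j0 + d i ∈ A) ∧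
      ∀ m : Fin k → ℤ, (∀ i, |m i| ≤ (C1 : ℤ)) → m ≠ 0 → ∑ i, m i * (d i : ℤ) ≠ 0 := by
  refine ⟨(2 * C1 + 1) ^ k, fun A hA => ?_⟩
  have hne : A.Nonempty := card_pos.1 (by omega)
  set j0 := A.min' hne
  have hinj : Set.InjOn (fun j => j - j0) A := by
    intro x hx y hy hxy
    have h1 := A.min'_le x hx
    have h2 := A.min'_le y hy
    simp only at hxy
    omega
  obtain ⟨d, hd, hrel⟩ := select C1 k (A.image fun j => j - j0)
    (by rw [card_image_of_injOn hinj]; omega)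
  refine ⟨j0, d, A.min'_mem hne, fun i => ?_, hrel⟩
  obtain ⟨x, hx, hxd⟩ := mem_image.1 (hd i)
  have h1 := A.min'_le x hx
  have : j0 + d i = x := by omega
  rwa [this]

/-- auxiliary coefficients together with the zero lemma -/
theorem auxZL (om : ℕ) (hom : 1 ≤ om) : ∃ k C1 C2 : ℕ, 1 ≤ k ∧ 1 ≤ C1 ∧
    ∀ (V : ℕ) (τ : Fin k → ℝ) (t : Fin k → ℂ) (w0 : ℂ), k ≤ V → (∀ i, 0 ≤ τ i) → (∀ i, τ i ≤ 1) →
      NonRes C1 ((om + 2) * V) τ → (∀ i, t i ≠ 0) → w0 ≠ 0 →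
      (∃ (R : ℤ[X]) (e : ℕ), R ≠ 0 ∧ 1 ≤ e ∧ (X - C w0) ^ e ∣ R.map (Int.castRingHom ℂ) ∧
        (R.sum fun _ c => |(c : ℝ)|) ≤ 2 ^ (C2 * V * e)) ∨
      ∃ c : (Fin k → ℕ) → ℤ, Orth ((om + 2) * V) om V 0 (kp τ) c ∧
        ∑ z ∈ Om k ((om + 2) * V), |(c z : ℝ)| ≤ 2 ^ (7 * ((om + 2) * V)) ∧
        ∑ z ∈ Om k ((om + 2) * V), (c z : ℂ) * ((∏ i, t i ^ z i) * w0 ^ kp τ z) ≠ 0 := by
  obtain ⟨C1, C2, hC1, hz⟩ := zeroLemma (2 * om * (om + 2)) (om + 2) 6 (by omega)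
  have hk : 1 ≤ 2 * om * (om + 2) := Nat.mul_pos (by omega) (by omega)
  refine ⟨2 * om * (om + 2), C1, C2, hk, hC1, fun V τ t w0 hV h0 h1 hN ht hw => ?_⟩
  obtain ⟨c, hc0, hcl, hco⟩ := aux om V hom hV (kp τ) fun z hz => kp_le h1 hz
  by_cases hall : ∀ a : Fin (2 * om * (om + 2)) → ℕ, ∑ i, a i < V →
      ∑ z ∈ Om (2 * om * (om + 2)) ((om + 2) * V),
        (c z : ℂ) * (bin z a : ℂ) * ((∏ i, t i ^ z i) * w0 ^ kp τ z) = 0
  · left
    obtain ⟨S, e, hS, he, hd, hl⟩ := hz V τ c t w0 (by omega) h0 ht hw hN hc0 hcl hall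
    refine ⟨S, e, hS, he, hd, ?_⟩
    rw [Polynomial.sum_def]
    exact_mod_cast hl
  · right
    push Not at hall
    obtain ⟨a, ha, hne⟩ := hall
    refine ⟨fun z => c z * (bin z a : ℤ), orth_mul hco a ha.le, ?_, ?_⟩
    · have h2 : ∑ z ∈ Om (2 * om * (om + 2)) ((om + 2) * V), |c z * (bin z a : ℤ)| ≤
          2 ^ (7 * ((om + 2) * V)) := by
        calc _ ≤ ∑ z ∈ Om (2 * om * (om + 2)) ((om + 2) * V), |c z| * 2 ^ ((om + 2) * V) := by
              refine sum_le_sum fun z hz => ?_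
              rw [abs_mul]
              refine mul_le_mul_of_nonneg_left ?_ (abs_nonneg _)
              rw [abs_of_nonneg (Int.natCast_nonneg _)]
              exact_mod_cast bin_le hz a
          _ ≤ 2 ^ (6 * ((om + 2) * V)) * 2 ^ ((om + 2) * V) := by
              rw [← sum_mul]
              exact mul_le_mul_of_nonneg_right hcl (by positivity)
          _ = _ := by rw [← pow_add]; congr 1; ring
      exact_mod_cast h2
    · simpa using hne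

end Pool.Agent.P.MP_6e34ef_nt.AK
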