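import Pool.Agent.P.MP_6e34ef_nt.AK.CloseA

set_option autoImplicit false
open Finset NumberField

namespace Pool.Agent.P.MP_6e34ef_nt.AK

open Pool.Agent.P.MP_6e34ef_nt.NF Pool.Agent.P.MP_6e34ef_nt.SE

variable {K : Type} [Field K] [NumberField K]

theorem closeB_exp {k Z : ℕ} {τ : Fin k → ℝ} (hτ : ∀ i, 0 ≤ τ i) {z : Fin k → ℕ}
    (hz : z ∈ Om k Z) (σ o r : ℝ) : ∃ θ : ℝ, 0 ≤ θ ∧ θ ≤ 1 ∧
      ((Z - ∑ i, z i : ℕ) : ℝ) * (r - σ * o) + ∑ i, (z i : ℝ) * (r - (σ + τ i) * o) +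
        (kp τ z : ℝ) * o = Z * r - Z * σ * o - θ * o := by
  refine ⟨∑ i, (z i : ℝ) * τ i - kp τ z, sub_nonneg.2 (kp_le_real hτ z),
    by linarith [lt_kp_add_one τ z], ?_⟩
  have e : ∑ i, (z i : ℝ) * (r - (σ + τ i) * o) =
      (∑ i, (z i : ℝ)) * (r - σ * o) - (∑ i, (z i : ℝ) * τ i) * o := by
    rw [sum_mul, sum_mul, ← sum_sub_distrib]
    exact sum_congr rfl fun i _ => by ring
  rw [e, Nat.cast_sub (mem_Om.1 hz), Nat.cast_sum]
  ring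

theorem closeB_max {θ : ℝ} (h0 : 0 ≤ θ) (h1 : θ ≤ 1) (o : ℝ) : θ * o ≤ max o 0 :=
  (mul_le_mul_of_nonneg_left (le_max_left o 0) h0).trans
    (mul_le_of_le_one_left (le_max_right o 0) h1)

/-- order of the value at a prime of the support -/
theorem triv_fin {k Z : ℕ} {τ : Fin k → ℝ} (hτ : ∀ i, 0 ≤ τ i) (c : (Fin k → ℕ) → ℤ)
    {P0 ξ : K} {P : Fin k → K} (v : Pr K) {σ r : ℝ}
    (h0 : Ge v P0 (-σ * (ord v ξ : ℝ) - r)) (hP : ∀ i, Ge v (P i) (-(σ + τ i) * (ord v ξ : ℝ) - r)) :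
    Ge v (val Z τ c P0 P ξ) (-(Z * σ * (ord v ξ : ℝ)) - Z * r - max (ord v ξ : ℝ) 0) := by
  refine Ge.sum fun z hz => ?_
  obtain ⟨θ, t0, t1, e⟩ := closeB_exp hτ hz σ (ord v ξ : ℝ) (-r)
  have h1 : Ge v P0 (-r - σ * (ord v ξ : ℝ)) := h0.mono (le_of_eq (by ring))
  have h2 : ∀ i, Ge v (P i) (-r - (σ + τ i) * (ord v ξ : ℝ)) := fun i =>
    (hP i).mono (le_of_eq (by ring))
  refine ((Ge.intCast v (c z)).mul (((h1.pow _).mul
    (Ge.prod fun i _ => (h2 i).pow (z i))).mul ((Ge.self v ξ).pow _))).mono ?_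
  rw [e]
  linarith [closeB_max t0 t1 (ord v ξ : ℝ)]

/-- size of the value at an infinite place -/
theorem triv_inf {k Z : ℕ} {τ : Fin k → ℝ} (hτ : ∀ i, 0 ≤ τ i) (c : (Fin k → ℕ) → ℤ)
    {P0 ξ : K} (hξ : ξ ≠ 0) {P : Fin k → K} (w : InfinitePlace K) {σ β : ℝ}
    (h0 : w P0 ≤ Real.exp (β - σ * la w ξ)) (hP : ∀ i, w (P i) ≤ Real.exp (β - (σ + τ i) * la w ξ)) :
    w (val Z τ c P0 P ξ) ≤
      (∑ z ∈ Om k Z, |(c z : ℝ)|) * Real.exp (Z * β - Z * σ * la w ξ + max (-la w ξ) 0) := by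
  rw [sum_mul]
  refine (w.1.sum_le _ _).trans (sum_le_sum fun z hz => ?_)
  obtain ⟨θ, t0, t1, e⟩ := closeB_exp hτ hz σ (la w ξ) β
  have hc : w (c z : K) = |(c z : ℝ)| := by
    rw [InfinitePlace.map_intCast, Int.norm_eq_abs]
  have hx : w ξ = Real.exp (la w ξ) := (Real.exp_log (InfinitePlace.pos_iff.2 hξ)).symm
  change w _ ≤ _
  rw [map_mul, hc, mon, map_mul, map_mul, map_pow, map_pow, map_prod]
  refine mul_le_mul_of_nonneg_left ?_ (abs_nonneg _)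
  calc w P0 ^ (Z - ∑ i, z i) * (∏ i, w (P i ^ z i)) * w ξ ^ kp τ z
      ≤ Real.exp (β - σ * la w ξ) ^ (Z - ∑ i, z i) *
          (∏ i, Real.exp (β - (σ + τ i) * la w ξ) ^ z i) * Real.exp (la w ξ) ^ kp τ z := by
        rw [← hx]
        gcongr with i
        rw [map_pow]
        exact pow_le_pow_left₀ (apply_nonneg _ _) (hP i) _
    _ ≤ _ := by
        simp only [← Real.exp_nat_mul]
        rw [← Real.exp_sum, ← Real.exp_add, ← Real.exp_add, e, Real.exp_le_exp]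
        linarith [closeB_max t0 t1 (-la w ξ)]

end Pool.Agent.P.MP_6e34ef_nt.AK
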