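import Pool.Agent.P.MP_6e34ef_nt.AK.Expand

set_option autoImplicit false
open Finset NumberField

namespace Pool.Agent.P.MP_6e34ef_nt.AK

open Pool.Agent.P.MP_6e34ef_nt.NF Pool.Agent.P.MP_6e34ef_nt.SE

variable {K : Type} [Field K] [NumberField K]

/-- a surviving term has weighted degree at least `om * V` -/
lemma closeA_deg {om V s b : ℕ} (h : ¬ (b < om ∧ s < V * (om - b))) :
    (om : ℝ) * V ≤ (s : ℝ) + (b : ℝ) * V := by
  have h1 : om * V ≤ s + b * V := by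
    by_cases hb : b < om
    · have h2 : V * (om - b) ≤ s := not_lt.1 fun h3 => h ⟨hb, h3⟩
      obtain ⟨d, rfl⟩ := Nat.exists_eq_add_of_le hb.le
      rw [Nat.add_sub_cancel_left] at h2
      nlinarith
    · exact (Nat.mul_le_mul_right V (not_lt.1 hb)).trans (Nat.le_add_left _ _)
  exact_mod_cast h1

lemma closeA_sum_bin {k Z : ℕ} {z : Fin k → ℕ} (hz : z ∈ Om k Z) :
    ∑ a ∈ Om k Z, (bin z a : ℝ) ≤ 2 ^ Z := by
  have h := prod_expand (F := ℝ) 1 (fun _ : Fin k => 2) hz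
  have h2 : ∀ a : Fin k → ℕ, (bin z a : ℝ) * ((1 : ℝ) ^ (Z - ∑ i, a i) * ∏ i, ((2 : ℝ) - 1) ^ a i) =
      bin z a := fun a => by norm_num
  rw [sum_congr rfl fun a _ => h2 a, one_pow, one_mul, prod_pow_eq_pow_sum] at h
  rw [← h]
  exact pow_le_pow_right₀ one_le_two (mem_Om.1 hz)

lemma closeA_sum_choose {n Z : ℕ} (h : n ≤ Z) :
    ∑ b ∈ range (Z + 1), (n.choose b : ℝ) ≤ 2 ^ Z := by
  have h1 := pow_expand (F := ℝ) 1 1 n Z h
  simp only [one_pow, mul_one] at h1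
  rw [← h1, one_add_one_eq_two]
  exact pow_le_pow_right₀ one_le_two h

/-- high vanishing at a prime of the modulus -/
theorem close_fin {k om V Z : ℕ} {τ : Fin k → ℝ} (hτ : ∀ i, τ i ≤ 1) {c : (Fin k → ℕ) → ℤ}
    (hc : Orth Z om V 0 (kp τ) c) {P0 ξ : K} {P : Fin k → K} (v : Pr K) (e : ℕ) (h0 : Ge v P0 0)
    (hP : ∀ i, Ge v (P i - P0) e) (hξ : Ge v (ξ - 1) ((V : ℝ) * e)) :
    Ge v (val Z τ c P0 P ξ) ((om : ℝ) * V * e) := by
  rw [val_expand τ c P0 P ξ fun z hz => kp_le hτ hz]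
  refine Ge.sum fun a _ => Ge.sum fun b _ => ?_
  by_cases h : b < om ∧ ∑ i, a i < V * (om - b)
  · rw [hc b h.1 a (by simpa using h.2), Int.cast_zero, zero_mul]
    exact Ge.zero v _
  · have h1 := (Ge.intCast v (∑ z ∈ Om k Z, c z * (bin z a : ℤ) * ((kp τ z).choose b : ℤ))).mul
      (((h0.pow (Z - ∑ i, a i)).mul
        (Ge.prod (t := univ) fun i _ => (hP i).pow (a i))).mul (hξ.pow b))
    refine h1.mono ?_
    have h2 := mul_le_mul_of_nonneg_right (closeA_deg h) (Nat.cast_nonneg (α := ℝ) e)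
    rw [← sum_mul, ← Nat.cast_sum]
    linarith

/-- high vanishing at an infinite place of the modulus -/
theorem close_inf {k om V Z : ℕ} {τ : Fin k → ℝ} (hτ : ∀ i, τ i ≤ 1) {c : (Fin k → ℕ) → ℤ}
    (hc : Orth Z om V 0 (kp τ) c) {P0 ξ : K} {P : Fin k → K} (w : InfinitePlace K) {t u : ℝ} (hu : 0 ≤ u)
    (h0 : w P0 ≤ Real.exp t) (hP : ∀ i, w (P i - P0) ≤ Real.exp (t - u))
    (hξ : w (ξ - 1) ≤ Real.exp (-((V : ℝ) * u))) :
    w (val Z τ c P0 P ξ) ≤
      (∑ z ∈ Om k Z, |(c z : ℝ)|) * 4 ^ Z * Real.exp (Z * t - (om : ℝ) * V * u) := by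
  have hk : ∀ z ∈ Om k Z, kp τ z ≤ Z := fun z hz => kp_le hτ hz
  set E := Real.exp (Z * t - (om : ℝ) * V * u) with hE
  have hE0 : 0 ≤ E := (Real.exp_pos _).le
  have term : ∀ a ∈ Om k Z, ∀ b ∈ range (Z + 1),
      w (((∑ z ∈ Om k Z, c z * (bin z a : ℤ) * ((kp τ z).choose b : ℤ) : ℤ) : K) *
        (P0 ^ (Z - ∑ i, a i) * (∏ i, (P i - P0) ^ a i) * (ξ - 1) ^ b)) ≤
      (∑ z ∈ Om k Z, |(c z : ℝ)| * ((bin z a : ℝ) * ((kp τ z).choose b : ℝ))) * E := by
    intro a ha b _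
    have hn : 0 ≤ ∑ z ∈ Om k Z, |(c z : ℝ)| * ((bin z a : ℝ) * ((kp τ z).choose b : ℝ)) :=
      sum_nonneg fun z _ => by positivity
    by_cases h : b < om ∧ ∑ i, a i < V * (om - b)
    · rw [hc b h.1 a (by simpa using h.2), Int.cast_zero, zero_mul, map_zero]
      exact mul_nonneg hn hE0
    · rw [map_mul]
      refine mul_le_mul ?_ ?_ (apply_nonneg _ _) hn
      · rw [InfinitePlace.map_intCast, Int.norm_eq_abs]
        push_cast
        refine (abs_sum_le_sum_abs _ _).trans (le_of_eq (sum_congr rfl fun z _ => ?_))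
        rw [mul_assoc, abs_mul, abs_of_nonneg (a := (bin z a : ℝ) * _) (by positivity)]
      · have e1 : w (P0 ^ (Z - ∑ i, a i)) ≤ Real.exp (((Z - ∑ i, a i : ℕ) : ℝ) * t) := by
          rw [map_pow, Real.exp_nat_mul]
          exact pow_le_pow_left₀ (apply_nonneg _ _) h0 _
        have e2 : w (∏ i, (P i - P0) ^ a i) ≤ Real.exp (∑ i, (a i : ℝ) * (t - u)) := by
          rw [map_prod, Real.exp_sum]
          refine prod_le_prod (fun i _ => apply_nonneg _ _) fun i _ => ?_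
          rw [map_pow, Real.exp_nat_mul]
          exact pow_le_pow_left₀ (apply_nonneg _ _) (hP i) _
        have e3 : w ((ξ - 1) ^ b) ≤ Real.exp ((b : ℝ) * -((V : ℝ) * u)) := by
          rw [map_pow, Real.exp_nat_mul]
          exact pow_le_pow_left₀ (apply_nonneg _ _) hξ _
        rw [map_mul, map_mul]
        refine (mul_le_mul (mul_le_mul e1 e2 (apply_nonneg _ _) (Real.exp_pos _).le) e3
          (apply_nonneg _ _) (by positivity)).trans ?_
        rw [← Real.exp_add, ← Real.exp_add, hE, Real.exp_le_exp, Nat.cast_sub (mem_Om.1 ha),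
          ← sum_mul, ← Nat.cast_sum]
        have h2 := mul_le_mul_of_nonneg_right (closeA_deg h) hu
        linarith
  rw [val_expand τ c P0 P ξ hk]
  refine (w.1.sum_le _ _).trans ?_
  refine (sum_le_sum fun a ha => (w.1.sum_le _ _).trans
    (sum_le_sum fun b hb => term a ha b hb)).trans ?_
  simp only [← sum_mul]
  refine mul_le_mul_of_nonneg_right ?_ hE0
  rw [sum_congr rfl fun a _ => sum_comm, sum_comm, sum_mul]
  refine sum_le_sum fun z hz => ?_
  simp only [← mul_sum]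
  refine mul_le_mul_of_nonneg_left ?_ (abs_nonneg _)
  rw [← sum_mul, show (4 : ℝ) ^ Z = 2 ^ Z * 2 ^ Z by rw [← mul_pow]; norm_num]
  exact mul_le_mul (closeA_sum_bin hz) (closeA_sum_choose (hk z hz))
    (sum_nonneg fun b _ => Nat.cast_nonneg _) (by positivity)

end Pool.Agent.P.MP_6e34ef_nt.AK
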