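import Pool.Agent.P.MP_6e34ef_nt.AK.CollideA
import Pool.Agent.P.MP_6e34ef_nt.NF.Many
import Pool.Agent.P.MP_6e34ef_nt.NF.Resid

set_option autoImplicit false
open Finset NumberField

namespace Pool.Agent.P.MP_6e34ef_nt.AK

open Pool.Agent.P.MP_6e34ef_nt.NF Pool.Agent.P.MP_6e34ef_nt.SE

variable {K : Type} [Field K] [NumberField K]

/-- many congruent anchors with distinct slopes -/
theorem collide {S T : Finset (Pr K)} {ξ : K} {V : ℕ} {e : Pr K → ℕ} {U : InfinitePlace K → ℝ}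
    (hM : Modu S T ξ V e U) (J KK Y : ℕ) (hK : 1 ≤ KK) (γ b L : ℝ) (hγ : 0 ≤ γ) (hJ : J * γ ≤ 1)
    (hL : ∑ v ∈ S, wt v ≤ L)
    (h1 : dg K * b + 2 * dg K + 1 / (KK : ℝ) * L < depth T e U)
    (h2 : dg K + lD K / 2 ≤ dg K * b)
    (h3 : 2 * (Y : ℝ) * (KK : ℝ) ^ S.card *
      Real.exp (depth T e U - dg K * b + 3 * dg K + lD K / 2) < (J : ℝ) + 1) :
    ∃ (φ : Pr K → ℝ) (β : ℝ) (A : Finset ℕ) (P : ℕ → K),
      dg K * β = dg K * b - ∑ v ∈ S, φ v * wt v ∧ Y < A.card ∧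
      (∀ j ∈ A, j ≤ J ∧ Anch S ξ φ (1 / (KK : ℝ)) β (j * γ) (P j)) ∧
      ∀ j ∈ A, ∀ j' ∈ A, Cong T e U β (P j) (P j') := by
  classical
  obtain ⟨φ, JJ, hJJ, hcard, hφ⟩ := boxes S (fun j v => -((j : ℝ) * γ) * (ord v ξ : ℝ)) J KK hK
  have hn : 0 < dg K := lt_of_lt_of_le one_pos one_le_dg
  have hKR : (0 : ℝ) < KK := by exact_mod_cast hK
  set β : ℝ := b - (∑ v ∈ S, φ v * wt v) / dg K with hβdef
  have hβ : dg K * β = dg K * b - ∑ v ∈ S, φ v * wt v := by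
    rw [hβdef]; field_simp
  set E : ℝ := dg K * b - dg K - lD K / 2 with hE
  have hE0 : 0 ≤ E := by rw [hE]; linarith
  have hexp1 : 1 ≤ Real.exp E := Real.one_le_exp hE0
  set M : ℕ := ⌊Real.exp E⌋₊ with hMdef
  have hM1 : 1 ≤ M := Nat.le_floor (by exact_mod_cast hexp1)
  have hM1R : (1 : ℝ) ≤ M := by exact_mod_cast hM1
  have hM2 : (M : ℝ) ≤ Real.exp E := Nat.floor_le (Real.exp_pos E).le
  have hM3 : Real.exp E ≤ 2 * M := by
    have := Nat.lt_floor_add_one (Real.exp E)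
    rw [← hMdef] at this
    linarith
  have hlogM : Real.log M ≤ E := by
    rw [← Real.log_exp E]
    exact Real.log_le_log (by linarith) hM2
  have hjJ : ∀ j ∈ JJ, j ≤ J := fun j hj => Nat.lt_succ_iff.1 (mem_range.1 (hJJ hj))
  have hσ0 : ∀ j : ℕ, 0 ≤ (j : ℝ) * γ := fun j => by positivity
  have hσ1 : ∀ j ∈ JJ, (j : ℝ) * γ ≤ 1 := fun j hj => by
    have : (j : ℝ) ≤ J := by exact_mod_cast hjJ j hj
    exact (mul_le_mul_of_nonneg_right this hγ).trans hJ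
  have hmany : ∀ j ∈ JJ, ∃ Yj : Finset K, Yj.card = M ∧ ∀ y ∈ Yj,
      Anch S ξ φ (1 / (KK : ℝ)) β (j * γ) y ∧
        ∀ v ∈ S, Ge v y (-(((ord v ξ).natAbs : ℕ) : ℝ)) := by
    intro j hj
    obtain ⟨Yj, hc, hY⟩ := many S (fun v => ⌊-((j : ℝ) * γ) * (ord v ξ : ℝ)⌋)
      (fun w => β - (j : ℝ) * γ * la w ξ) M hM1 (by
        have p1 := prod_formula hM.ne S hM.supp
        have p2 : ∑ w : InfinitePlace K, mu w * (β - (j : ℝ) * γ * la w ξ) =
            dg K * β - (j : ℝ) * γ * ∑ v ∈ S, (ord v ξ : ℝ) * wt v := by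
          rw [← p1, ← sum_mu, sum_mul, mul_sum, ← sum_sub_distrib]
          exact sum_congr rfl fun w _ => by ring
        have p3 : ∑ v ∈ S, ((⌊-((j : ℝ) * γ) * (ord v ξ : ℝ)⌋ : ℤ) : ℝ) * wt v ≤
            -((j : ℝ) * γ * ∑ v ∈ S, (ord v ξ : ℝ) * wt v) - ∑ v ∈ S, φ v * wt v := by
          rw [mul_sum, ← sum_neg_distrib, ← sum_sub_distrib]
          refine sum_le_sum fun v hv => ?_
          have q1 := (hφ j hj v hv).1
          have q2 := Int.floor_add_fract (-((j : ℝ) * γ) * (ord v ξ : ℝ))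
          have q3 : ((⌊-((j : ℝ) * γ) * (ord v ξ : ℝ)⌋ : ℤ) : ℝ) ≤
              -((j : ℝ) * γ) * (ord v ξ : ℝ) - φ v := by linarith
          have q4 := mul_le_mul_of_nonneg_right q3 (wt_pos v).le
          linarith
        rw [p2, hβ]
        linarith)
    refine ⟨Yj, hc, fun y hy => ?_⟩
    obtain ⟨y0, y1, y2, y3⟩ := hY y hy
    refine ⟨⟨y0, fun v hv => ?_, y2, y3⟩, fun v hv => Or.inr ?_⟩
    · have q1 := (hφ j hj v hv).2
      have q2 := Int.floor_add_fract (-((j : ℝ) * γ) * (ord v ξ : ℝ))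
      have q3 : ((⌊-((j : ℝ) * γ) * (ord v ξ : ℝ)⌋ : ℤ) : ℝ) ≤ ord v y := by exact_mod_cast y1 v hv
      linarith
    · have q1 : -|ord v ξ| ≤ ⌊-((j : ℝ) * γ) * (ord v ξ : ℝ)⌋ := by
        rw [Int.le_floor]
        push_cast
        have a1 := hσ0 j
        have a2 := hσ1 j hj
        have a3 := le_abs_self (ord v ξ : ℝ)
        have a4 := abs_nonneg (ord v ξ : ℝ)
        nlinarith
      have q2 := q1.trans (y1 v hv)
      rw [Nat.cast_natAbs]
      exact_mod_cast q2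
  choose! Yj hYc hYa using hmany
  obtain ⟨N1, col1, hN1, hc1, hr1⟩ := resid S T hM.disj (fun v => (ord v ξ).natAbs) e
  obtain ⟨N2, col2, hN2, hc2, hr2⟩ := squares (univ.filter fun w : InfinitePlace K => U w ≠ 0)
    (fun _ => β + 1) U (fun w _ => hM.nonneg w)
  have hsumU : ∑ w ∈ univ.filter (fun w : InfinitePlace K => U w ≠ 0), mu w * U w =
      ∑ w : InfinitePlace K, mu w * U w :=
    sum_filter_of_ne fun w _ h h0 => h (by rw [h0, mul_zero])
  have hsize : ∀ j ∈ JJ, ∀ y ∈ Yj j, ∀ w ∈ univ.filter (fun w : InfinitePlace K => U w ≠ 0),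
      w y ≤ Real.exp (β + 1) := by
    intro j hj y hy w hw
    have hU := (mem_filter.1 hw).2
    have a0 := (hYa j hj y hy).1
    have a1 := a0.inf w
    have a2 := hM.half w hU
    have a3 : (1 : ℝ) / 2 ≤ w ξ := by
      have b1 := w.1.add_le ξ (-(ξ - 1))
      have b2 : ξ + -(ξ - 1) = 1 := by ring
      rw [b2, map_one, AbsoluteValue.map_neg] at b1
      have b3 : w.1 ξ = w ξ := rfl
      have b4 : w.1 (ξ - 1) = w (ξ - 1) := rfl
      linarith
    have a4 : -1 ≤ la w ξ := by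
      have b1 := Real.log_le_log (by norm_num) a3
      have b2 : Real.log (1 / 2) = -Real.log 2 := by rw [one_div, Real.log_inv]
      have b3 := Real.log_le_sub_one_of_pos (show (0 : ℝ) < 2 by norm_num)
      unfold la
      linarith
    have a5 : la w y ≤ β + 1 := by
      have b1 := hσ0 j
      have b2 := hσ1 j hj
      nlinarith
    have a6 : 0 < w y := InfinitePlace.pos_iff.2 a0.ne
    calc w y = Real.exp (la w y) := (Real.exp_log a6).symm
      _ ≤ _ := Real.exp_le_exp.2 a5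
  have hcong : ∀ j ∈ JJ, ∀ y ∈ Yj j, ∀ j' ∈ JJ, ∀ y' ∈ Yj j', col1 y = col1 y' →
      col2 y = col2 y' → Cong T e U β y y' := by
    intro j hj y hy j' hj' y' hy' e1 e2
    refine ⟨hr1 y y' (hYa j hj y hy).2
      (fun v hv => Or.inr (by exact_mod_cast (hYa j hj y hy).1.int v hv)) (hYa j' hj' y' hy').2
      (fun v hv => Or.inr (by exact_mod_cast (hYa j' hj' y' hy').1.int v hv)) e1, fun w hw => ?_⟩
    exact hr2 y y' (hsize j hj y hy) (hsize j' hj' y' hy') e2 w (mem_filter.2 ⟨mem_univ w, hw⟩)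
  have hcount : (range N1 ×ˢ range N2).card * Y < (JJ.sigma Yj).card := by
    rw [card_product, card_range, card_range, card_sigma, sum_congr rfl hYc, sum_const,
      smul_eq_mul]
    have a1 : (N1 : ℝ) * N2 ≤ Real.exp (depth T e U + 2 * dg K) := by
      rw [hsumU] at hN2
      calc (N1 : ℝ) * N2 ≤ _ := mul_le_mul hN1 hN2 (Nat.cast_nonneg _) (Real.exp_pos _).le
        _ = _ := by rw [← Real.exp_add, depth, add_assoc]
    have a2 : (J : ℝ) + 1 ≤ JJ.card * (KK : ℝ) ^ S.card := by exact_mod_cast hcard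
    have a3 : 2 * (Y : ℝ) * Real.exp (depth T e U - dg K * b + 3 * dg K + lD K / 2) < JJ.card := by
      have hp : (0 : ℝ) < (KK : ℝ) ^ S.card := by positivity
      apply lt_of_mul_lt_mul_right _ hp.le
      linarith
    have a4 : Real.exp (depth T e U + 2 * dg K) =
        Real.exp (depth T e U - dg K * b + 3 * dg K + lD K / 2) * Real.exp E := by
      rw [← Real.exp_add, hE]; congr 1; ring
    have a5 : (N1 : ℝ) * N2 * Y < JJ.card * M := by
      have hY0 : (0 : ℝ) ≤ Y := Nat.cast_nonneg _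
      have hx := Real.exp_pos (depth T e U - dg K * b + 3 * dg K + lD K / 2)
      calc (N1 : ℝ) * N2 * Y ≤ Real.exp (depth T e U + 2 * dg K) * Y := by gcongr
        _ ≤ Real.exp (depth T e U - dg K * b + 3 * dg K + lD K / 2) * (2 * M) * Y := by
            rw [a4]; gcongr
        _ = 2 * (Y : ℝ) * Real.exp (depth T e U - dg K * b + 3 * dg K + lD K / 2) * M := by ring
        _ < JJ.card * M := by gcongr
    exact_mod_cast a5
  obtain ⟨cl, -, hcl⟩ := exists_lt_card_fiber_of_mul_lt_card_of_maps_to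
    (s := JJ.sigma Yj) (t := range N1 ×ˢ range N2) (f := fun x => (col1 x.2, col2 x.2))
    (fun x _ => mem_product.2 ⟨mem_range.2 (hc1 _), mem_range.2 (hc2 _)⟩) hcount
  set F := (JJ.sigma Yj).filter (fun x => (col1 x.2, col2 x.2) = cl) with hF
  have hFm : ∀ x ∈ F, x.1 ∈ JJ ∧ x.2 ∈ Yj x.1 ∧ col1 x.2 = cl.1 ∧ col2 x.2 = cl.2 := by
    intro x hx
    obtain ⟨a1, a2⟩ := mem_filter.1 hx
    obtain ⟨a3, a4⟩ := mem_sigma.1 a1
    exact ⟨a3, a4, congrArg Prod.fst a2, congrArg Prod.snd a2⟩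
  have hFc : ∀ x ∈ F, ∀ x' ∈ F, Cong T e U β x.2 x'.2 := by
    intro x hx x' hx'
    obtain ⟨a1, a2, a3, a4⟩ := hFm x hx
    obtain ⟨b1, b2, b3, b4⟩ := hFm x' hx'
    exact hcong _ a1 _ a2 _ b1 _ b2 (a3.trans b3.symm) (a4.trans b4.symm)
  have hinj : Set.InjOn (fun x : (_ : ℕ) × K => x.1) F := by
    rintro ⟨j, y⟩ hx ⟨j', y'⟩ hx' h
    have h' : j = j' := h
    subst h'
    obtain ⟨a1, a2, -, -⟩ := hFm _ hx
    obtain ⟨-, b2, -, -⟩ := hFm _ hx'
    have := anch_eq hM (by positivity) (hσ0 j) (hσ1 j a1) hβ hL h1 (hYa j a1 y a2).1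
      (hYa j a1 y' b2).1 (hFc _ hx _ hx')
    rw [show y = y' from this]
  have hex : ∀ j ∈ F.image (fun x : (_ : ℕ) × K => x.1), ∃ y : K, (⟨j, y⟩ : (_ : ℕ) × K) ∈ F := by
    intro j hj
    obtain ⟨x, hx, rfl⟩ := mem_image.1 hj
    exact ⟨x.2, hx⟩
  choose! P hP using hex
  refine ⟨φ, β, F.image (fun x : (_ : ℕ) × K => x.1), P, hβ, ?_, fun j hj => ?_,
    fun j hj j' hj' => hFc _ (hP j hj) _ (hP j' hj')⟩
  · rw [card_image_of_injOn hinj]; exact hcl
  · obtain ⟨a1, a2, -, -⟩ := hFm _ (hP j hj)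
    exact ⟨hjJ j a1, (hYa j a1 _ a2).1⟩

end Pool.Agent.P.MP_6e34ef_nt.AK
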