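import Pool.Agent.P.MP_6e34ef_nt.AK.Defs
import Pool.Agent.P.MP_6e34ef_nt.NF.Many
import Pool.Agent.P.MP_6e34ef_nt.NF.Resid

set_option autoImplicit false
open Finset NumberField

namespace Pool.Agent.P.MP_6e34ef_nt.AK

open Pool.Agent.P.MP_6e34ef_nt.NF Pool.Agent.P.MP_6e34ef_nt.SE

variable {K : Type} [Field K] [NumberField K]

theorem collidea_floor_lt (y : ℝ) {KK : ℕ} (hK : 1 ≤ KK) : ⌊(KK : ℝ) * Int.fract y⌋₊ < KK := by
  have h0 : (0 : ℝ) < KK := by exact_mod_cast hK
  rw [Nat.floor_lt (mul_nonneg h0.le (Int.fract_nonneg y))]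
  nlinarith [Int.fract_lt_one y]

/-- one box class of fractional parts -/
theorem boxes {ι : Type} (S : Finset ι) (x : ℕ → ι → ℝ) (J KK : ℕ) (hK : 1 ≤ KK) :
    ∃ (φ : ι → ℝ) (JJ : Finset ℕ), JJ ⊆ range (J + 1) ∧ J + 1 ≤ JJ.card * KK ^ S.card ∧
      ∀ j ∈ JJ, ∀ v ∈ S, φ v ≤ Int.fract (x j v) ∧ Int.fract (x j v) ≤ φ v + 1 / (KK : ℝ) := by
  classical
  have h0 : (0 : ℝ) < KK := by exact_mod_cast hK
  let col : ℕ → (S → Fin KK) := fun j v =>
    ⟨⌊(KK : ℝ) * Int.fract (x j v)⌋₊, collidea_floor_lt _ hK⟩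
  obtain ⟨c, -, hc⟩ := exists_max_image (univ : Finset (S → Fin KK))
    (fun c => ((range (J + 1)).filter fun j => col j = c).card) ⟨col 0, mem_univ _⟩
  refine ⟨fun v => if h : v ∈ S then ((c ⟨v, h⟩ : ℕ) : ℝ) / KK else 0,
    (range (J + 1)).filter fun j => col j = c, filter_subset _ _, ?_, fun j hj v hv => ?_⟩
  · have h1 := card_eq_sum_card_fiberwise (f := col) (s := range (J + 1)) (t := univ)
      fun _ _ => mem_coe.2 (mem_univ _)
    have h2 := sum_le_card_nsmul _ _ _ hc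
    rw [← h1, card_range, card_univ, Fintype.card_fun, Fintype.card_fin, Fintype.card_coe,
      smul_eq_mul, mul_comm] at h2
    exact h2
  · have h1 : ((c ⟨v, hv⟩ : ℕ) : ℝ) = ⌊(KK : ℝ) * Int.fract (x j v)⌋₊ := by
      rw [← (mem_filter.1 hj).2]
    have h2 := Nat.floor_le (mul_nonneg h0.le (Int.fract_nonneg (x j v)))
    have h3 := Nat.lt_floor_add_one ((KK : ℝ) * Int.fract (x j v))
    simp only [dif_pos hv, h1]
    refine ⟨?_, ?_⟩
    · rw [div_le_iff₀ h0]; linarith
    · rw [← add_div, le_div_iff₀ h0]; linarith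

theorem collidea_la_le (w : InfinitePlace K) {x : K} (hx : x ≠ 0) {t : ℝ}
    (h : w x ≤ Real.exp t) : la w x ≤ t :=
  (Real.log_le_iff_le_exp (InfinitePlace.pos_iff.2 hx)).2 h

theorem collidea_le_exp (w : InfinitePlace K) {x : K} (hx : x ≠ 0) {t : ℝ}
    (h : la w x ≤ t) : w x ≤ Real.exp t :=
  (Real.log_le_iff_le_exp (InfinitePlace.pos_iff.2 hx)).1 h

/-- two congruent anchors of the same slope coincide -/
theorem anch_eq {S T : Finset (Pr K)} {ξ : K} {V : ℕ} {e : Pr K → ℕ} {U : InfinitePlace K → ℝ}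
    (hM : Modu S T ξ V e U) {φ : Pr K → ℝ} {η β σ b L : ℝ} (hη : 0 ≤ η) (hσ0 : 0 ≤ σ) (hσ1 : σ ≤ 1)
    (hβ : dg K * β = dg K * b - ∑ v ∈ S, φ v * wt v) (hL : ∑ v ∈ S, wt v ≤ L)
    (h1 : dg K * b + 2 * dg K + η * L < depth T e U) {P P' : K}
    (hP : Anch S ξ φ η β σ P) (hP' : Anch S ξ φ η β σ P') (hc : Cong T e U β P P') : P = P' := by
  classical
  by_contra hne
  have hD : P - P' ≠ 0 := sub_ne_zero.2 hne
  have hint : ∀ v : Pr K, v ∉ S → Ge v (P - P') 0 := fun v hv =>
    ((Ge.self v P).mono (by exact_mod_cast hP.int v hv)).sub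
      ((Ge.self v P').mono (by exact_mod_cast hP'.int v hv))
  have h := liouville hD (S ∪ T)
    (fun v => if v ∈ T then (e v : ℝ) else -σ * (ord v ξ : ℝ) - φ v - η)
    (fun w => β + 2 - U w - σ * la w ξ)
    (fun v hv => by
      split_ifs with hT
      · exact hc.fin v hT
      · have hS : v ∈ S := (mem_union.1 hv).resolve_right hT
        exact ((Ge.self v P).mono (hP.fin v hS)).sub ((Ge.self v P').mono (hP'.fin v hS)))
    (fun v hv => hint v fun h => hv (mem_union_left _ h))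
    (fun w => by
      by_cases hU : U w = 0
      · have a1 := collidea_le_exp w hP.ne (hP.inf w)
        have a2 := collidea_le_exp w hP'.ne (hP'.inf w)
        have a3 := w.1.add_le P (-P')
        rw [← sub_eq_add_neg, AbsoluteValue.map_neg] at a3
        refine collidea_la_le w hD ?_
        have a4 : β + 2 - U w - σ * la w ξ = β - σ * la w ξ + 2 := by rw [hU]; ring
        have a5 : (2 : ℝ) ≤ Real.exp 2 := by linarith [Real.add_one_le_exp (2 : ℝ)]
        have a6 := Real.exp_pos (β - σ * la w ξ)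
        have a7 : w (P - P') ≤ w P + w P' := a3
        rw [a4, Real.exp_add]
        nlinarith
      · have a1 := collidea_la_le w hD (hc.inf w hU)
        have a2 := w.1.add_le (ξ - 1) 1
        rw [sub_add_cancel, map_one] at a2
        have a3 : w ξ ≤ w (ξ - 1) + 1 := a2
        have a4 : la w ξ ≤ 1 := collidea_la_le w hM.ne (by
          linarith [hM.half w hU, Real.add_one_le_exp (1 : ℝ)])
        nlinarith)
  rw [sum_union hM.disj,
    sum_congr rfl (s₂ := S) (g := fun v => -σ * ((ord v ξ : ℝ) * wt v) - φ v * wt v - η * wt v)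
      fun v hv => by rw [if_neg (disjoint_left.1 hM.disj hv)]; ring,
    sum_congr rfl (s₂ := T) (g := fun v => (e v : ℝ) * wt v) fun v hv => by rw [if_pos hv],
    sum_congr rfl (s₂ := univ)
      (g := fun w => (β + 2) * mu w - mu w * U w - σ * (mu w * la w ξ)) fun w _ => by ring] at h
  simp only [sum_sub_distrib, ← mul_sum] at h
  rw [sum_mu, prod_formula hM.ne S hM.supp] at h
  have h2 := mul_le_mul_of_nonneg_left hL hη
  unfold depth at h1
  nlinarith

end Pool.Agent.P.MP_6e34ef_nt.AK
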