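import Pool.Agent.P.MP_6e34ef_nt.AK.Close

set_option autoImplicit false
open Finset NumberField

namespace Pool.Agent.P.MP_6e34ef_nt.AK

open Pool.Agent.P.MP_6e34ef_nt.NF Pool.Agent.P.MP_6e34ef_nt.SE

variable {K : Type} [Field K] [NumberField K]

omit [NumberField K] in
theorem core_la {w : InfinitePlace K} {ξ : K} (h : w (ξ - 1) ≤ 1 / 2) :
    -1 ≤ la w ξ ∧ la w ξ ≤ 1 := by
  have h1 := w.1.add_le (ξ - 1) 1
  have h2 := w.1.add_le ξ (-(ξ - 1))
  rw [sub_add_cancel, map_one] at h1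
  rw [AbsoluteValue.map_neg, show ξ + -(ξ - 1) = 1 by ring, map_one] at h2
  have h3 : w ξ ≤ w (ξ - 1) + 1 := h1
  have h4 : 1 ≤ w ξ + w (ξ - 1) := h2
  have h5 : 0 < w ξ := by linarith
  refine ⟨?_, (Real.log_le_sub_one_of_pos h5).trans (by linarith)⟩
  have h6 := Real.log_le_log (by norm_num : (0 : ℝ) < 1 / 2) (by linarith : 1 / 2 ≤ w ξ)
  rw [one_div, Real.log_inv] at h6
  have := Real.log_two_lt_d9
  unfold la
  linarith

omit [NumberField K] in
theorem core_exp {w : InfinitePlace K} {x : K} (hx : x ≠ 0) {a : ℝ} :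
    la w x ≤ a ↔ w x ≤ Real.exp a :=
  Real.log_le_iff_le_exp (InfinitePlace.pos_iff.2 hx)

theorem core_two (Z : ℕ) : (2 : ℝ) ^ (7 * Z) ≤ Real.exp (5 * Z) ∧ (4 : ℝ) ^ Z ≤ Real.exp (2 * Z) := by
  have h := Real.log_two_lt_d9
  have hZ : (0 : ℝ) ≤ Z := Nat.cast_nonneg Z
  constructor
  · rw [← Real.log_le_iff_le_exp (by positivity), Real.log_pow]
    push_cast
    nlinarith
  · rw [← Real.log_le_iff_le_exp (by positivity), Real.log_pow,
      show (4 : ℝ) = 2 ^ 2 by norm_num, Real.log_pow]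
    push_cast
    nlinarith

/-- the product formula applied to a nonzero auxiliary value -/
theorem core {S T : Finset (Pr K)} {ξ : K} {V : ℕ} {e : Pr K → ℕ} {U : InfinitePlace K → ℝ}
    (hM : Modu S T ξ V e U) {k om Z : ℕ} {τ : Fin k → ℝ} {σ : ℝ} (hσ : 0 ≤ σ) (hσ1 : σ ≤ 1)
    (hτ0 : ∀ i, 0 ≤ τ i) (hτ1 : ∀ i, σ + τ i ≤ 1) {c : (Fin k → ℕ) → ℤ} (hc : Orth Z om V 0 (kp τ) c)
    (hl : ∑ z ∈ Om k Z, |(c z : ℝ)| ≤ 2 ^ (7 * Z)) {φ : Pr K → ℝ} {η β b L : ℝ} (hη : 0 ≤ η)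
    (hβ : dg K * β = dg K * b - ∑ v ∈ S, φ v * wt v) (hL : ∑ v ∈ S, wt v ≤ L)
    {P0 : K} {P : Fin k → K} (h0 : Anch S ξ φ η β σ P0)
    (hP : ∀ i, Anch S ξ φ η β (σ + τ i) (P i)) (hcg : ∀ i, Cong T e U β (P i) P0)
    (hne : val Z τ c P0 P ξ ≠ 0) :
    (om : ℝ) * V * depth T e U ≤ ht S ξ + Z * (dg K * b + η * L + 9 * dg K) := by
  classical
  have hτ : ∀ i, τ i ≤ 1 := fun i => by linarith [hτ1 i]
  have hZ : (0 : ℝ) ≤ Z := Nat.cast_nonneg Z
  obtain ⟨e1, e2⟩ := core_two Z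
  have hl' := hl.trans e1
  have off : ∀ v, v ∉ S → ∀ {s : ℝ} {Q : K}, Anch S ξ φ η β s Q →
      Ge v Q (-s * (ord v ξ : ℝ) - 0) := fun v hv s Q h => Or.inr (by
    rw [hM.supp v hv]
    simpa using h.int v hv)
  have key := liouville hne (S ∪ T)
    (fun v => if v ∈ S then -(Z * σ * (ord v ξ : ℝ)) - Z * (φ v + η) - max (ord v ξ : ℝ) 0
      else (om : ℝ) * V * e v)
    (fun w => 9 * Z + Z * β - Z * σ * la w ξ + max (-la w ξ) 0 - (om : ℝ) * V * U w)
    (fun v hv => by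
      by_cases h : v ∈ S
      · rw [if_pos h]
        exact triv_fin hτ0 c v (Or.inr (by linarith [h0.fin v h]))
          fun i => Or.inr (by linarith [(hP i).fin v h])
      · rw [if_neg h]
        have hT := (mem_union.1 hv).resolve_left h
        exact close_fin hτ hc v (e v) (Or.inr (by exact_mod_cast h0.int v h))
          (fun i => (hcg i).fin v hT) (hM.fin v hT))
    (fun v hv => by
      have h : v ∉ S := fun h => hv (mem_union_left _ h)
      refine (triv_fin hτ0 c v (off v h h0) fun i => off v h (hP i)).mono (le_of_eq ?_)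
      rw [hM.supp v h]
      simp)
    (fun w => by
      rw [core_exp hne]
      by_cases h : U w = 0
      · refine (triv_inf hτ0 c hM.ne w ((core_exp h0.ne).1 (h0.inf w))
          fun i => (core_exp (hP i).ne).1 ((hP i).inf w)).trans ?_
        refine (mul_le_mul_of_nonneg_right hl' (Real.exp_pos _).le).trans ?_
        rw [← Real.exp_add, Real.exp_le_exp, h]
        linarith
      · obtain ⟨a1, a2⟩ := core_la (hM.half w h)
        have a3 : -1 ≤ σ * la w ξ := by nlinarith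
        have a4 : σ * la w ξ ≤ 1 := by nlinarith
        refine (close_inf hτ hc w (t := β + 1) (hM.nonneg w)
          ((core_exp h0.ne).1 (by linarith [h0.inf w])) (fun i => (hcg i).inf w h)
          (hM.inf w h)).trans ?_
        refine (mul_le_mul_of_nonneg_right (mul_le_mul hl' e2 (by positivity) (Real.exp_pos _).le)
          (Real.exp_pos _).le).trans ?_
        rw [← Real.exp_add, ← Real.exp_add, Real.exp_le_exp]
        have a5 := mul_le_mul_of_nonneg_left a4 hZ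
        linarith [le_max_right (-la w ξ) 0])
  rw [sum_union hM.disj, sum_congr rfl fun v hv => by rw [if_pos hv],
    sum_congr (s₁ := T) rfl fun v hv => by rw [if_neg (disjoint_right.1 hM.disj hv)]] at key
  have b1 : ∑ v ∈ S, (-(Z * σ * (ord v ξ : ℝ)) - Z * (φ v + η) - max (ord v ξ : ℝ) 0) * wt v =
      -(Z * σ * ∑ v ∈ S, (ord v ξ : ℝ) * wt v) - Z * ∑ v ∈ S, φ v * wt v -
        Z * η * ∑ v ∈ S, wt v - ∑ v ∈ S, max (ord v ξ : ℝ) 0 * wt v := by
    simp only [mul_sum, ← sum_neg_distrib, ← sum_sub_distrib]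
    exact sum_congr rfl fun v _ => by ring
  have b2 : ∑ v ∈ T, (om : ℝ) * V * e v * wt v = (om : ℝ) * V * ∑ v ∈ T, (e v : ℝ) * wt v := by
    rw [mul_sum]
    exact sum_congr rfl fun v _ => by ring
  have b3 : ∑ w : InfinitePlace K, mu w *
      (9 * Z + Z * β - Z * σ * la w ξ + max (-la w ξ) 0 - (om : ℝ) * V * U w) =
      (9 * Z + Z * β) * ∑ w : InfinitePlace K, mu w -
        Z * σ * ∑ w : InfinitePlace K, mu w * la w ξ +
        ∑ w : InfinitePlace K, mu w * max (-la w ξ) 0 -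
        (om : ℝ) * V * ∑ w : InfinitePlace K, mu w * U w := by
    simp only [mul_sum, ← sum_add_distrib, ← sum_sub_distrib]
    exact sum_congr rfl fun v _ => by ring
  rw [b1, b2, b3, sum_mu, prod_formula hM.ne S hM.supp] at key
  rw [ht_eq_zeros hM.ne hM.supp, depth]
  have b4 := mul_le_mul_of_nonneg_left hL (mul_nonneg hZ hη)
  have b5 : (Z : ℝ) * (dg K * β) = Z * (dg K * b - ∑ v ∈ S, φ v * wt v) := by rw [hβ]
  linarith

end Pool.Agent.P.MP_6e34ef_nt.AK
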