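import Pool.Agent.P.MP_6e34ef_nt.NF.Ord
import Pool.Agent.P.MP_6e34ef_nt.SE.Defs

set_option autoImplicit false
open NumberField

namespace Pool.Agent.P.MP_6e34ef_nt.AK

open Pool.Agent.P.MP_6e34ef_nt.NF Pool.Agent.P.MP_6e34ef_nt.SE

/-- the homogeneous monomial -/
noncomputable def mon {F : Type} [Field F] {k : ℕ} (Z : ℕ) (τ : Fin k → ℝ) (P0 : F) (P : Fin k → F)
    (ξ : F) (z : Fin k → ℕ) : F :=
  P0 ^ (Z - ∑ i, z i) * (∏ i, P i ^ z i) * ξ ^ kp τ z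

/-- the auxiliary value -/
noncomputable def val {F : Type} [Field F] {k : ℕ} (Z : ℕ) (τ : Fin k → ℝ) (c : (Fin k → ℕ) → ℤ)
    (P0 : F) (P : Fin k → F) (ξ : F) : F :=
  ∑ z ∈ Om k Z, (c z : F) * mon Z τ P0 P ξ z

variable {K : Type} [Field K] [NumberField K]

/-- total depth of the modulus -/
noncomputable def depth (T : Finset (Pr K)) (e : Pr K → ℕ) (U : InfinitePlace K → ℝ) : ℝ :=
  ∑ v ∈ T, (e v : ℝ) * wt v + ∑ w : InfinitePlace K, mu w * U w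

/-- `P` behaves like `ξ^(-σ)` at all places -/
structure Anch (S : Finset (Pr K)) (ξ : K) (φ : Pr K → ℝ) (η β σ : ℝ) (P : K) : Prop where
  ne : P ≠ 0
  fin : ∀ v ∈ S, -σ * (ord v ξ : ℝ) - φ v - η ≤ ord v P
  int : ∀ v : Pr K, v ∉ S → 0 ≤ ord v P
  inf : ∀ w : InfinitePlace K, la w P ≤ β - σ * la w ξ

/-- `P` and `P'` are congruent for the modulus -/
structure Cong (T : Finset (Pr K)) (e : Pr K → ℕ) (U : InfinitePlace K → ℝ) (β : ℝ) (P P' : K) :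
    Prop where
  fin : ∀ v ∈ T, Ge v (P - P') (e v)
  inf : ∀ w : InfinitePlace K, U w ≠ 0 → w (P - P') ≤ Real.exp (β + 1 - U w)

/-- the modulus `(e, U)` divides `ξ - 1` to depth `V` -/
structure Modu (S T : Finset (Pr K)) (ξ : K) (V : ℕ) (e : Pr K → ℕ) (U : InfinitePlace K → ℝ) :
    Prop where
  ne : ξ ≠ 0
  supp : ∀ v : Pr K, v ∉ S → ord v ξ = 0
  disj : Disjoint S T
  fin : ∀ v ∈ T, Ge v (ξ - 1) ((V : ℝ) * e v)
  nonneg : ∀ w : InfinitePlace K, 0 ≤ U w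
  half : ∀ w : InfinitePlace K, U w ≠ 0 → w (ξ - 1) ≤ 1 / 2
  inf : ∀ w : InfinitePlace K, U w ≠ 0 → w (ξ - 1) ≤ Real.exp (-((V : ℝ) * U w))

end Pool.Agent.P.MP_6e34ef_nt.AK
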