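import Pool.Agent.P.MP_6e34ef_nt.AK.Defs

set_option autoImplicit false
open Finset

namespace Pool.Agent.P.MP_6e34ef_nt.AK

open Pool.Agent.P.MP_6e34ef_nt.SE

lemma pow_expand {F : Type} [CommRing F] (x y : F) (n Z : ℕ) (h : n ≤ Z) :
    (x + y) ^ n = ∑ a ∈ range (Z + 1), (n.choose a : F) * (x ^ a * y ^ (n - a)) := by
  rw [add_pow]
  rw [← sum_subset (s₁ := range (n + 1)) (s₂ := range (Z + 1))]
  · exact sum_congr rfl fun a _ => by ring
  · intro a ha; simp only [mem_range] at ha ⊢; omega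
  · intro a _ ha
    simp only [mem_range, not_lt] at ha
    rw [Nat.choose_eq_zero_of_lt (by omega)]; simp

lemma bin_eq_zero {k : ℕ} {z a : Fin k → ℕ} (h : ¬ ∀ i, a i ≤ z i) : bin z a = 0 := by
  push Not at h
  obtain ⟨i, hi⟩ := h
  exact prod_eq_zero (mem_univ i) (Nat.choose_eq_zero_of_lt hi)

lemma prod_expand {F : Type} [CommRing F] {k Z : ℕ} (P0 : F) (P : Fin k → F) {z : Fin k → ℕ}
    (hz : z ∈ Om k Z) :
    P0 ^ (Z - ∑ i, z i) * ∏ i, P i ^ z i =
      ∑ a ∈ Om k Z, (bin z a : F) * (P0 ^ (Z - ∑ i, a i) * ∏ i, (P i - P0) ^ a i) := by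
  have hzs := mem_Om.1 hz
  have hle : ∀ i, z i ≤ Z := fun i =>
    (single_le_sum (f := z) (fun _ _ => Nat.zero_le _) (mem_univ i)).trans hzs
  have h1 : ∏ i, P i ^ z i = ∏ i, ∑ a ∈ range (Z + 1),
      ((z i).choose a : F) * ((P i - P0) ^ a * P0 ^ (z i - a)) := by
    refine prod_congr rfl fun i _ => ?_
    rw [← pow_expand (P i - P0) P0 (z i) Z (hle i)]; simp
  rw [h1, prod_univ_sum, mul_sum]
  unfold Om
  rw [sum_filter]
  refine sum_congr rfl fun a _ => ?_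
  by_cases ha : ∀ i, a i ≤ z i
  · have hs : ∑ i, a i ≤ ∑ i, z i := sum_le_sum fun i _ => ha i
    rw [if_pos (hs.trans hzs), prod_mul_distrib, prod_mul_distrib, prod_pow_eq_pow_sum]
    have h2 : ∑ i, (z i - a i) = ∑ i, z i - ∑ i, a i := by
      rw [sum_tsub_distrib _ fun i _ => ha i]
    have h3 : Z - ∑ i, a i = (Z - ∑ i, z i) + ∑ i, (z i - a i) := by omega
    rw [h3, pow_add]
    simp only [bin, Nat.cast_prod]
    ring
  · have hb : ∏ i, (((z i).choose (a i) : ℕ) : F) = 0 := by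
      have := bin_eq_zero ha
      unfold bin at this
      rw [← Nat.cast_prod, this]; simp
    rw [prod_mul_distrib, hb]
    split_ifs
    · rw [bin_eq_zero ha]; simp
    · simp

/-- Taylor expansion of the auxiliary value around the diagonal -/
theorem val_expand {F : Type} [Field F] {k Z : ℕ} (τ : Fin k → ℝ) (c : (Fin k → ℕ) → ℤ)
    (P0 : F) (P : Fin k → F) (ξ : F) (hk : ∀ z ∈ Om k Z, kp τ z ≤ Z) :
    val Z τ c P0 P ξ = ∑ a ∈ Om k Z, ∑ b ∈ range (Z + 1),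
      ((∑ z ∈ Om k Z, c z * (bin z a : ℤ) * ((kp τ z).choose b : ℤ) : ℤ) : F) *
        (P0 ^ (Z - ∑ i, a i) * (∏ i, (P i - P0) ^ a i) * (ξ - 1) ^ b) := by
  unfold val mon
  have h1 : ∀ z ∈ Om k Z, (c z : F) * (P0 ^ (Z - ∑ i, z i) * (∏ i, P i ^ z i) * ξ ^ kp τ z) =
      ∑ a ∈ Om k Z, ∑ b ∈ range (Z + 1),
        ((c z * (bin z a : ℤ) * ((kp τ z).choose b : ℤ) : ℤ) : F) *
        (P0 ^ (Z - ∑ i, a i) * (∏ i, (P i - P0) ^ a i) * (ξ - 1) ^ b) := by
    intro z hz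
    have h2 : ξ ^ kp τ z = ∑ b ∈ range (Z + 1), ((kp τ z).choose b : F) * (ξ - 1) ^ b := by
      have := pow_expand (ξ - 1) 1 (kp τ z) Z (hk z hz)
      simpa using this
    rw [prod_expand P0 P hz, h2, sum_mul_sum, mul_sum]
    refine sum_congr rfl fun a _ => ?_
    rw [mul_sum]
    refine sum_congr rfl fun b _ => ?_
    push_cast
    ring
  rw [sum_congr rfl h1, sum_comm]
  refine sum_congr rfl fun a _ => ?_
  rw [sum_comm]
  refine sum_congr rfl fun b _ => ?_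
  rw [← sum_mul]
  push_cast
  rfl

end Pool.Agent.P.MP_6e34ef_nt.AK
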