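import Pool.Agent.P.MP_6e34ef_nt.AK.Main
import Pool.Agent.P.MP_6e34ef_nt.NF.Bridge

set_option autoImplicit false
open Finset NumberField

namespace Pool.Agent.P.MP_6e34ef_nt.AK

open Pool.Agent.P.MP_6e34ef_nt.NF Pool.Agent.P.MP_6e34ef_nt.SE

theorem final (ε : ℝ) (hε : 0 < ε) : ∃ C : ℝ, 0 < C ∧
    ∀ (K : Type) [Field K] [NumberField K] (a b c : K), a ≠ 0 → b ≠ 0 → c ≠ 0 → a + b + c = 0 →
      (Module.finrank ℚ K : ℝ) * Real.log (Hgt a b c) ≤
        (C * rd K ^ ((1 : ℝ) / 2 + ε) * Cond a b c ^ ε) ^ Module.finrank ℚ K := by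
  obtain ⟨C, hC0, hC⟩ := main ε hε
  refine ⟨Real.exp (ε * C + 1), Real.exp_pos _, ?_⟩
  intro K _ _ a b c ha hb hc h
  obtain ⟨x, S, T, hx0, hx1, hS, hST, hT, hL, hH⟩ := bridge ha hb hc h
  have hn : (1 : ℝ) ≤ dg K := one_le_dg
  have hD : 0 ≤ lD K := lD_nonneg
  have hrd : (1 : ℝ) ≤ rd K := one_le_rd
  have hN : (1 : ℝ) ≤ Cond a b c := one_le_Cond a b c
  have hlN : 0 ≤ Real.log (Cond a b c) := Real.log_nonneg hN
  have h1 : 0 ≤ C * dg K := by positivity
  have h2 : 0 ≤ dg K * Real.log (Cond a b c) := by positivity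
  have hm := hC K S T x (C * dg K + lD K + dg K * Real.log (Cond a b c)) hx0 hx1 hS hST hT
    (by linarith) (by linarith) (by linarith)
  set E := lD K / 2 + ε * (C * dg K + lD K + dg K * Real.log (Cond a b c)) with hE
  have hE0 : 0 ≤ E := by positivity
  have hE1 : 1 ≤ Real.exp E := Real.one_le_exp hE0
  have h3 : dg K + 1 ≤ Real.exp (dg K) := Real.add_one_le_exp _
  have h4 : dg K * Real.log (Hgt a b c) ≤ Real.exp (E + dg K) := by
    rw [Real.exp_add]
    calc dg K * Real.log (Hgt a b c) ≤ Real.exp E + dg K := by linarith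
      _ ≤ Real.exp E * (dg K + 1) := by nlinarith
      _ ≤ Real.exp E * Real.exp (dg K) := by gcongr
  have h5 : (Real.exp (ε * C + 1) * rd K ^ ((1 : ℝ) / 2 + ε) * Cond a b c ^ ε) ^
      Module.finrank ℚ K = Real.exp (E + dg K) := by
    rw [Real.rpow_def_of_pos (by linarith), Real.rpow_def_of_pos (by linarith), ← Real.exp_add,
      ← Real.exp_add, ← Real.exp_nat_mul, hE, ← log_rd (K := K)]
    congr 1
    unfold dg
    ring
  rw [h5]
  exact h4

end Pool.Agent.P.MP_6e34ef_nt.AK
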