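import Pool.Agent.P.MP_6e34ef_nt.AK.Collide
import Pool.Agent.P.MP_6e34ef_nt.AK.Core
import Pool.Agent.P.MP_6e34ef_nt.AK.Box
import Pool.Agent.P.MP_6e34ef_nt.NF.Hgt

set_option autoImplicit false
open Finset NumberField

namespace Pool.Agent.P.MP_6e34ef_nt.AK

open Pool.Agent.P.MP_6e34ef_nt.NF Pool.Agent.P.MP_6e34ef_nt.SE

lemma prop_val_map {K : Type} [Field K] (φ : K →+* ℂ) {k Z : ℕ} (τ : Fin k → ℝ)
    (c : (Fin k → ℕ) → ℤ) {P0 : K} (h0 : P0 ≠ 0) (P : Fin k → K) (ξ : K) :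
    φ (val Z τ c P0 P ξ) = φ P0 ^ Z * ∑ z ∈ Om k Z,
      (c z : ℂ) * ((∏ i, (φ (P i) / φ P0) ^ z i) * φ ξ ^ kp τ z) := by
  have h0' : φ P0 ≠ 0 := (map_ne_zero φ).2 h0
  unfold val mon
  rw [map_sum, mul_sum]
  refine sum_congr rfl fun z hz => ?_
  have hz' := mem_Om.1 hz
  simp only [map_mul, map_pow, map_prod, map_intCast, div_pow, prod_div_distrib,
    prod_pow_eq_pow_sum]
  have h1 : φ P0 ^ Z = φ P0 ^ (Z - ∑ i, z i) * φ P0 ^ ∑ i, z i := by
    rw [← pow_add]; congr 1; omega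
  rw [h1]
  field_simp

/-- the main inequality -/
theorem prop (om : ℕ) (hom : 1 ≤ om) : ∃ C : ℕ, 1 ≤ C ∧
    ∀ (K : Type) [Field K] [NumberField K] (S T : Finset (Pr K)) (ξ : K) (V : ℕ) (e : Pr K → ℕ)
      (U : InfinitePlace K → ℝ) (KK : ℕ) (b L : ℝ), Modu S T ξ V e U → 1 ≤ KK → C ≤ V →
      ∑ v ∈ S, wt v ≤ L →
      dg K * b + 2 * dg K + 1 / (KK : ℝ) * L < depth T e U →
      dg K + lD K / 2 ≤ dg K * b →
      (C : ℝ) * (KK : ℝ) ^ S.card * Real.exp (depth T e U - dg K * b + 3 * dg K + lD K / 2) ≤ V →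
      (C : ℝ) * dg K * V < ht S ξ →
      (om : ℝ) * V * depth T e U ≤
        ht S ξ + ((om : ℝ) + 2) * V * (dg K * b + 1 / (KK : ℝ) * L + 9 * dg K) := by
  obtain ⟨k, C1, C2, hk, hC1, hz⟩ := auxZL om hom
  obtain ⟨Y, hY⟩ := select' k C1
  refine ⟨4 * Y * k * C1 ^ 2 + 2 * C1 + C2 + k, by omega, ?_⟩
  intro K _ _ S T ξ V e U KK b L hM hK hV hL h1 h2 h3 h4
  set Z := (om + 2) * V with hZ
  have hVZ : V ≤ Z := by rw [hZ]; nlinarith
  have hV1 : 1 ≤ V := by omega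
  have hZ0 : (0 : ℝ) < Z := by exact_mod_cast (show 0 < Z by omega)
  have hk0 : (0 : ℝ) < k := by exact_mod_cast hk
  have hC0 : (0 : ℝ) < C1 := by exact_mod_cast hC1
  set γ : ℝ := C1 / Z with hγ
  have hγ0 : 0 ≤ γ := by positivity
  set q : ℕ := 2 * k * C1 ^ 2 with hq
  have hq0 : 0 < q := by positivity
  set J := Z / q with hJ
  have hJq : (J : ℝ) * q ≤ Z := by exact_mod_cast Nat.div_mul_le_self Z q
  have hJq' : (Z : ℝ) < (J + 1) * q := by
    have := Nat.lt_mul_div_succ Z hq0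
    rw [mul_comm] at this
    exact_mod_cast this
  have hqR : (q : ℝ) = 2 * k * C1 ^ 2 := by rw [hq]; push_cast; ring
  have hJγ : 2 * (k : ℝ) * C1 * (J * γ) ≤ 1 := by
    have : 2 * (k : ℝ) * C1 * (J * γ) = J * q / Z := by rw [hγ, hqR]; field_simp
    rw [this, div_le_one hZ0]; exact hJq
  have hk1 : (1 : ℝ) ≤ k := by exact_mod_cast hk
  have hC1' : (1 : ℝ) ≤ C1 := by exact_mod_cast hC1
  have hJγ0 : 0 ≤ (J : ℝ) * γ := by positivity
  have hJ1 : (J : ℝ) * γ ≤ 1 := by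
    have : (1 : ℝ) ≤ 2 * k * C1 := by nlinarith
    nlinarith
  set W : ℝ := (KK : ℝ) ^ S.card * Real.exp (depth T e U - dg K * b + 3 * dg K + lD K / 2) with hW
  have hW0 : 0 ≤ W := by positivity
  have h3' : 2 * (Y : ℝ) * (KK : ℝ) ^ S.card *
      Real.exp (depth T e U - dg K * b + 3 * dg K + lD K / 2) < (J : ℝ) + 1 := by
    rw [mul_assoc (2 * (Y : ℝ)), ← hW]
    rw [mul_assoc, ← hW] at h3
    have hq1 : (0 : ℝ) < q := by exact_mod_cast hq0
    have h5 : 2 * (Y : ℝ) * W * q ≤ V := by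
      refine le_trans ?_ h3
      push_cast
      rw [hqR]
      have : (0 : ℝ) ≤ (2 * C1 + C2 + k) * W := by positivity
      nlinarith
    have h6 : (V : ℝ) ≤ Z := by exact_mod_cast hVZ
    exact lt_of_mul_lt_mul_right (by linarith) hq1.le
  obtain ⟨φ, β, A, P, hβ, hA, hP, hcg⟩ := collide hM J KK Y hK γ b L hγ0 hJ1 hL h1 h2 h3'
  obtain ⟨j0, d, hj0, hd, hrel⟩ := hY A hA
  have hdJ : ∀ i, j0 + d i ≤ J := fun i => (hP _ (hd i)).1
  have hN : NonRes C1 Z fun i => (d i : ℝ) * γ :=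
    nonRes_of (J := J) d γ hγ0 (fun i => by have := hdJ i; omega) hrel
      (by rw [hγ]; field_simp; exact le_rfl) hJγ (by omega)
  have hle : ∀ j : ℕ, j ≤ J → (j : ℝ) * γ ≤ 1 := fun j hj =>
    le_trans (mul_le_mul_of_nonneg_right (by exact_mod_cast hj) hγ0) hJ1
  obtain ⟨w0⟩ : Nonempty (InfinitePlace K) := inferInstance
  have hP0 := (hP j0 hj0).2
  have hcast : ∀ i, ((j0 + d i : ℕ) : ℝ) * γ = j0 * γ + d i * γ := fun i => by push_cast; ring
  rcases hz V (fun i => (d i : ℝ) * γ)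
      (fun i => w0.embedding (P (j0 + d i)) / w0.embedding (P j0)) (w0.embedding ξ) (by omega)
      (fun i => by positivity) (fun i => hle _ (by have := hdJ i; omega)) hN
      (fun i => div_ne_zero ((map_ne_zero _).2 (hP _ (hd i)).2.ne) ((map_ne_zero _).2 hP0.ne))
      ((map_ne_zero _).2 hM.ne) with ⟨R, e', hR, he', hdv, hl⟩ | ⟨c, hco, hcl, hne⟩
  · exfalso
    have h5 := ht_root S R hR e' (dvd_of_emb w0.embedding R e' hdv)
    have hpos : 0 < R.sum fun _ c => |(c : ℝ)| := by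
      rw [Polynomial.sum_def]
      refine sum_pos (fun i hi => abs_pos.2 ?_) (Polynomial.support_nonempty.2 hR)
      exact_mod_cast Polynomial.mem_support_iff.1 hi
    have h6 : Real.log (R.sum fun _ c => |(c : ℝ)|) ≤ (C2 * V * e' : ℕ) := by
      refine (Real.log_le_log hpos hl).trans ?_
      rw [Real.log_pow]
      have := Real.log_two_lt_d9
      have h0 : (0 : ℝ) ≤ ((C2 * V * e' : ℕ) : ℝ) := Nat.cast_nonneg _
      nlinarith
    have hn := one_le_dg (K := K)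
    have he1 : (1 : ℝ) ≤ e' := by exact_mod_cast he'
    have h7 : (e' : ℝ) * ht S ξ ≤ e' * (C2 * dg K * V) := by
      refine h5.trans ((mul_le_mul_of_nonneg_left h6 (by linarith)).trans (le_of_eq ?_))
      push_cast; ring
    have h8 : ht S ξ ≤ C2 * dg K * V := le_of_mul_le_mul_left h7 (by linarith)
    have h9 : (C2 : ℝ) * dg K * V ≤ ((4 * Y * k * C1 ^ 2 + 2 * C1 + C2 + k : ℕ) : ℝ) * dg K * V := by
      refine mul_le_mul_of_nonneg_right (mul_le_mul_of_nonneg_right ?_ (by linarith)) (by positivity)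
      exact_mod_cast (show C2 ≤ 4 * Y * k * C1 ^ 2 + 2 * C1 + C2 + k by omega)
    linarith
  · have hv : val Z (fun i => (d i : ℝ) * γ) c (P j0) (fun i => P (j0 + d i)) ξ ≠ 0 := by
      intro h0
      have := prop_val_map w0.embedding (Z := Z) (fun i => (d i : ℝ) * γ) c hP0.ne
        (fun i => P (j0 + d i)) ξ
      rw [h0, map_zero] at this
      exact mul_ne_zero (pow_ne_zero _ ((map_ne_zero _).2 hP0.ne)) hne this.symm
    have := core hM (σ := j0 * γ) (by positivity) (hle _ (hP j0 hj0).1) (fun i => by positivity)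
      (fun i => by rw [← hcast]; exact hle _ (hdJ i)) hco hcl (by positivity) hβ hL hP0
      (fun i => by rw [← hcast]; exact (hP _ (hd i)).2) (fun i => hcg _ (hd i) _ hj0) hv
    have hZc : (Z : ℝ) = ((om : ℝ) + 2) * V := by rw [hZ]; push_cast; ring
    rwa [hZc] at this

end Pool.Agent.P.MP_6e34ef_nt.AK
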